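import Pool.Agent.Q213.PM.Stm


/-!
# Project PM (helper213): gluing of aspherical presheaves

The nerve of the category of elements is in each dimension the set of the pairs of a chain in the base and an
element over its last object; a pushout square of presheaves with one monomorphism gives a pushout square of
nerves.
-/

set_option autoImplicit false

universe v u w

open CategoryTheory Limits Opposite Simplicial HomotopicalAlgebra MonoidalCategory
open SSet.modelCategoryQuillen

namespace Pool.Agent.Q166.PM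

open Pool.Agent.Q213.PM

variable {A : Type u} [SmallCategory A]

/-- projection to `A` -/
def pr (P : Aᵒᵖ ⥤ Type u) : El P ⥤ A where
  obj x := x.pt
  map f := f.f
  map_id _ := rfl
  map_comp _ _ := rfl

theorem eqToHom_f {P : Aᵒᵖ ⥤ Type u} {x y : El P} (h : x = y) :
    (eqToHom h).f = eqToHom (congrArg El.pt h) := by
  subst h
  rfl

/-- pairs of a chain and an element over its last object -/
def T (n : ℕ) (P : Aᵒᵖ ⥤ Type u) : Type u :=
  Σ c : ComposableArrows A n, P.obj (op (c.obj (Fin.last n)))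

def T.map (n : ℕ) {P Q : Aᵒᵖ ⥤ Type u} (φ : P ⟶ Q) : T n P → T n Q :=
  fun x => ⟨x.1, φ.app _ x.2⟩

/-- the unique map to the last object -/
def toLast {n : ℕ} (i : Fin (n + 1)) : i ⟶ Fin.last n := homOfLE (Fin.le_last i)

/-- the chain with a given last element -/
def mk {n : ℕ} {P : Aᵒᵖ ⥤ Type u} (x : T n P) : ComposableArrows (El P) n where
  obj i := ⟨x.1.obj i, P.map (x.1.map (toLast i)).op x.2⟩
  map {i j} h := ⟨x.1.map h, by
    have e : x.1.map (toLast i) = x.1.map h ≫ x.1.map (toLast j) := by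
      rw [← x.1.map_comp]
      rfl
    rw [e, op_comp, P.map_comp]
    rfl⟩
  map_id _ := by
    ext
    simp
  map_comp _ _ := by
    ext
    simp

def unmk {n : ℕ} {P : Aᵒᵖ ⥤ Type u} (F : ComposableArrows (El P) n) : T n P :=
  ⟨F ⋙ pr P, (F.obj (Fin.last n)).el⟩

theorem unmk_mk {n : ℕ} {P : Aᵒᵖ ⥤ Type u} (x : T n P) : unmk (mk x) = x := by
  obtain ⟨c, x⟩ := x
  unfold unmk mk
  refine Sigma.ext rfl ?_
  apply heq_of_eq
  have e : toLast (Fin.last n) = 𝟙 _ := rfl
  change P.map (c.map (toLast (Fin.last n))).op x = x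
  rw [e, c.map_id, op_id, P.map_id]
  rfl

theorem mk_unmk {n : ℕ} {P : Aᵒᵖ ⥤ Type u} (F : ComposableArrows (El P) n) : mk (unmk F) = F := by
  have hobj : ∀ i, (mk (unmk F)).obj i = F.obj i := by
    intro i
    change El.mk (F.obj i).pt _ = F.obj i
    have := (F.map (toLast i)).w
    change El.mk (F.obj i).pt (P.map (F.map (toLast i)).f.op (F.obj (Fin.last n)).el) = F.obj i
    rw [this]
  refine CategoryTheory.Functor.ext hobj ?_
  intro i j f
  ext
  rw [El.comp_f, El.comp_f, eqToHom_f, eqToHom_f]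
  change (F.map f).f = _
  erw [eqToHom_refl, eqToHom_refl]
  exact ((Category.id_comp _).trans (Category.comp_id _)).symm

def eqv (n : ℕ) (P : Aᵒᵖ ⥤ Type u) : ComposableArrows (El P) n ≃ T n P where
  toFun := unmk
  invFun := mk
  left_inv := mk_unmk
  right_inv := unmk_mk

theorem eqv_map (n : ℕ) {P Q : Aᵒᵖ ⥤ Type u} (φ : P ⟶ Q) (F : ComposableArrows (El P) n) :
    unmk (((El.map φ).mapComposableArrows n).obj F) = T.map n φ (unmk F) := rfl


/-! ### squares of types -/

section sq

variable {X1 X2 X3 X4 : Type u}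

/-- elementary form of a pushout square of types with an injective map -/
structure Sq (f : X1 → X2) (g : X1 → X3) (g' : X2 → X4) (f' : X3 → X4) : Prop where
  w : ∀ x, g' (f x) = f' (g x)
  inj : Function.Injective f
  inj' : Function.Injective f'
  ex : ∀ x y, g' x = f' y → ∃ z, f z = x ∧ g z = y
  sur : ∀ x, (∃ y, g' y = x) ∨ ∃ y, f' y = x
  co : ∀ x y, x ∉ Set.range f → y ∉ Set.range f → g' x = g' y → x = y

theorem Sq.of {f : X1 ⟶ X2} {g : X1 ⟶ X3} {g' : X2 ⟶ X4} {f' : X3 ⟶ X4}
    (h : IsPushout f g g' f') (hf : Function.Injective f) : Sq f g g' f' where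
  w x := ConcreteCategory.congr_hom h.w x
  inj := hf
  inj' := Types.pushoutCocone_inr_injective_of_isColimit h.isColimit hf
  ex x y hxy := by
    exact Types.exists_of_isPullback (Types.isPullback_of_isPushout h hf) x y hxy
  sur x := Types.eq_or_eq_of_isPushout h x
  co x y hx hy hxy := by
    classical
    let k : X2 ⟶ ULift.{u} (Option X2) := ↾fun x => ⟨if x ∈ Set.range f then none else some x⟩
    let k' : X3 ⟶ ULift.{u} (Option X2) := ↾fun _ => ⟨none⟩
    have hw : f ≫ k = g ≫ k' := by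
      refine ConcreteCategory.hom_ext _ _ fun z => ?_
      change (ULift.up (if f z ∈ Set.range f then none else some (f z)) : ULift (Option X2)) = ⟨none⟩
      rw [if_pos ⟨z, rfl⟩]
    have h1 : g' ≫ h.desc k k' hw = k := h.inl_desc k k' hw
    have h2 : k x = k y := by
      rw [← h1]
      change (h.desc k k' hw) (g' x) = (h.desc k k' hw) (g' y)
      rw [hxy]
    change (ULift.up (if x ∈ Set.range f then none else some x) : ULift (Option X2)) =
      ⟨if y ∈ Set.range f then none else some y⟩ at h2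
    rw [if_neg hx, if_neg hy] at h2
    exact Option.some_injective _ (ULift.up_injective h2)

theorem Sq.push {f : X1 ⟶ X2} {g : X1 ⟶ X3} {g' : X2 ⟶ X4} {f' : X3 ⟶ X4}
    (h : Sq f g g' f') : IsPushout f g g' f' := by
  have : Mono f' := (mono_iff_injective _).2 h.inj'
  apply IsPushout.flip
  refine Types.isPushout_of_isPullback_of_mono' ?_ ?_ ?_
  · rw [Types.isPullback_iff]
    refine ⟨?_, fun x y hxy => h.inj hxy.2, ?_⟩
    · ext x
      exact (h.w x).symm
    · intro x y hxy
      obtain ⟨z, h1, h2⟩ := h.ex y x hxy.symm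
      exact ⟨z, h2, h1⟩
  · rw [Set.eq_univ_iff_forall]
    intro x
    rcases h.sur x with h1 | h1
    · exact Or.inr h1
    · exact Or.inl h1
  · intro x y hx hy hxy
    exact h.co x y hx hy hxy

end sq

variable {P0 P1 P2 P : Aᵒᵖ ⥤ Type u} {f : P0 ⟶ P1} {g : P0 ⟶ P2} {g' : P1 ⟶ P} {f' : P2 ⟶ P}

theorem sq_app (hf : Mono f) (h : IsPushout f g g' f') (a : Aᵒᵖ) :
    Sq (f.app a) (g.app a) (g'.app a) (f'.app a) := by
  apply Sq.of
  · exact h.map ((evaluation _ _).obj a)
  · exact (mono_iff_injective _).1 ((NatTrans.mono_iff_mono_app f).1 hf a)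

theorem sq_T (hf : Mono f) (h : IsPushout f g g' f') (n : ℕ) :
    Sq (T.map n f) (T.map n g) (T.map n g') (T.map n f') where
  w := by
    rintro ⟨c, x⟩
    exact Sigma.ext rfl (heq_of_eq ((sq_app hf h _).w x))
  inj := by
    rintro ⟨c, x⟩ ⟨c', x'⟩ hx
    obtain rfl : c = c' := congrArg Sigma.fst hx
    exact Sigma.ext rfl (heq_of_eq ((sq_app hf h _).inj (eq_of_heq (Sigma.mk.inj hx).2)))
  inj' := by
    rintro ⟨c, x⟩ ⟨c', x'⟩ hx
    obtain rfl : c = c' := congrArg Sigma.fst hx
    exact Sigma.ext rfl (heq_of_eq ((sq_app hf h _).inj' (eq_of_heq (Sigma.mk.inj hx).2)))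
  ex := by
    rintro ⟨c, x⟩ ⟨c', x'⟩ hx
    obtain rfl : c = c' := congrArg Sigma.fst hx
    obtain ⟨z, h1, h2⟩ := (sq_app hf h _).ex x x' (eq_of_heq (Sigma.mk.inj hx).2)
    exact ⟨⟨c, z⟩, Sigma.ext rfl (heq_of_eq h1), Sigma.ext rfl (heq_of_eq h2)⟩
  sur := by
    rintro ⟨c, x⟩
    rcases (sq_app hf h _).sur x with ⟨y, hy⟩ | ⟨y, hy⟩
    · exact Or.inl ⟨⟨c, y⟩, Sigma.ext rfl (heq_of_eq hy)⟩
    · exact Or.inr ⟨⟨c, y⟩, Sigma.ext rfl (heq_of_eq hy)⟩
  co := by
    rintro ⟨c, x⟩ ⟨c', x'⟩ h1 h2 hx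
    obtain rfl : c = c' := congrArg Sigma.fst hx
    refine Sigma.ext rfl (heq_of_eq ((sq_app hf h _).co x x' ?_ ?_
      (eq_of_heq (Sigma.mk.inj hx).2)))
    · rintro ⟨z, hz⟩
      exact h1 ⟨⟨c, z⟩, Sigma.ext rfl (heq_of_eq hz)⟩
    · rintro ⟨z, hz⟩
      exact h2 ⟨⟨c, z⟩, Sigma.ext rfl (heq_of_eq hz)⟩

theorem sq_nerve (hf : Mono f) (h : IsPushout f g g' f') (n : SimplexCategoryᵒᵖ) :
    Sq ((nerveMap (El.map f)).app n) ((nerveMap (El.map g)).app n)
      ((nerveMap (El.map g')).app n) ((nerveMap (El.map f')).app n) := by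
  have hT := sq_T hf h n.unop.len
  have e0 := eqv n.unop.len P0
  constructor
  · intro x
    apply (eqv n.unop.len P).injective
    exact hT.w (unmk x)
  · intro x y hxy
    apply (eqv n.unop.len P0).injective
    exact hT.inj (congrArg (eqv n.unop.len P1) hxy)
  · intro x y hxy
    apply (eqv n.unop.len P2).injective
    exact hT.inj' (congrArg (eqv n.unop.len P) hxy)
  · intro x y hxy
    obtain ⟨z, h1, h2⟩ := hT.ex (unmk x) (unmk y) (congrArg (eqv n.unop.len P) hxy)
    refine ⟨mk z, ?_, ?_⟩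
    · apply (eqv n.unop.len P1).injective
      change T.map _ f (unmk (mk z)) = unmk x
      rw [unmk_mk, h1]
    · apply (eqv n.unop.len P2).injective
      change T.map _ g (unmk (mk z)) = unmk y
      rw [unmk_mk, h2]
  · intro x
    rcases hT.sur (unmk x) with ⟨y, hy⟩ | ⟨y, hy⟩
    · refine Or.inl ⟨mk y, ?_⟩
      apply (eqv n.unop.len P).injective
      change T.map _ g' (unmk (mk y)) = unmk x
      rw [unmk_mk, hy]
    · refine Or.inr ⟨mk y, ?_⟩
      apply (eqv n.unop.len P).injective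
      change T.map _ f' (unmk (mk y)) = unmk x
      rw [unmk_mk, hy]
  · intro x y hx hy hxy
    apply (eqv n.unop.len P1).injective
    refine hT.co (unmk x) (unmk y) ?_ ?_ (congrArg (eqv n.unop.len P) hxy)
    · rintro ⟨z, hz⟩
      apply hx
      refine ⟨mk z, ?_⟩
      apply (eqv n.unop.len P1).injective
      change T.map _ f (unmk (mk z)) = unmk x
      rw [unmk_mk, hz]
    · rintro ⟨z, hz⟩
      apply hy
      refine ⟨mk z, ?_⟩
      apply (eqv n.unop.len P1).injective
      change T.map _ f (unmk (mk z)) = unmk y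
      rw [unmk_mk, hz]

theorem push_nerve (hf : Mono f) (h : IsPushout f g g' f') :
    IsPushout (nerveMap (El.map f)) (nerveMap (El.map g)) (nerveMap (El.map g'))
      (nerveMap (El.map f')) where
  w := by
    ext n x
    exact (sq_nerve hf h n).w x
  isColimit' := ⟨evaluationJointlyReflectsColimits _ (fun n ↦ by
    refine (isColimitMapCoconePushoutCoconeEquiv _ _).2 (IsPushout.isColimit ?_)
    exact (sq_nerve hf h n).push)⟩

theorem mono_nerve (hf : Mono f) (h : IsPushout f g g' f') : Mono (nerveMap (El.map f)) := by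
  rw [NatTrans.mono_iff_mono_app]
  intro n
  exact (mono_iff_injective _).2 (sq_nerve hf h n).inj

theorem gl (hMC : S_MC.{u}) : S_GL.{u} := by
  intro A _ P0 P1 P2 P f g g' f' hf h h0 h1 h2
  have hm := mono_nerve hf h
  have hA : Ac (nerveMap (El.map f)) := hMC _ hm h0 h1
  have hA' : Ac (nerveMap (El.map f')) :=
    MorphismProperty.of_isPushout (P := KF.llp) (push_nerve hf h).flip hA
  obtain ⟨x, hx⟩ := h2
  exact ⟨x ≫ nerveMap (El.map f'), MorphismProperty.comp_mem KF.llp _ _ hx hA'⟩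

end Pool.Agent.Q166.PM
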