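import Pool.Agent.Q213.PM.Stm

/-!
# Project PM (helper213): homotopy retracts of contractible simplicial sets
-/

set_option autoImplicit false

universe u

open CategoryTheory Limits Opposite Simplicial HomotopicalAlgebra MonoidalCategory
open SSet.modelCategoryQuillen

namespace Pool.Agent.Q166.PM

open Pool.Agent.Q213.PM

/-- an empty simplicial set -/
abbrev Emp : SSet.{u} := ((⊥ : (Δ[0] : SSet.{u}).Subcomplex) : SSet.{u})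

theorem emp_not : ¬ (Emp.{u}).Nonempty := by
  rintro ⟨x⟩
  exact x.2

theorem emp_tensor_not (Y : SSet.{u}) : ¬ (Emp.{u} ⊗ Y).Nonempty := by
  rintro ⟨x⟩
  exact emp_not ⟨x.1⟩

noncomputable def empI : IsInitial Emp.{u} := SSet.isInitialOfNotNonempty emp_not

noncomputable def empT (Y : SSet.{u}) : IsInitial (Emp.{u} ⊗ Y) :=
  SSet.isInitialOfNotNonempty (emp_tensor_not Y)

instance (X : SSet.{u}) : Mono (empI.to X) := by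
  constructor
  intro Z a b _
  have hZ : ¬ Z.Nonempty := by
    rintro ⟨z⟩
    exact emp_not ⟨a.app _ z⟩
  exact (SSet.isInitialOfNotNonempty hZ).hom_ext _ _

theorem path1 (hH1 : S_H1.{u}) {K L X : SSet.{u}} (q : K ⟶ L) (hq : Fibration q)
    (p : X ⊗ Δ[1] ⟶ L) (k : X ⟶ K) (h : SSet.ι₁ ≫ p = k ≫ q) :
    ∃ γ : X ⊗ Δ[1] ⟶ K, SSet.ι₁ ≫ γ = k ∧ γ ≫ q = p := by
  obtain ⟨H, h1, -, h2⟩ := hH1 (empI.to X) q k ((empT _).to K) p inferInstance hq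
    (empI.hom_ext _ _) h ((empT _).hom_ext _ _)
  exact ⟨H, h1, h2⟩

theorem path0 (hH0 : S_H0.{u}) {K L X : SSet.{u}} (q : K ⟶ L) (hq : Fibration q)
    (p : X ⊗ Δ[1] ⟶ L) (k : X ⟶ K) (h : SSet.ι₀ ≫ p = k ≫ q) :
    ∃ γ : X ⊗ Δ[1] ⟶ K, SSet.ι₀ ≫ γ = k ∧ γ ≫ q = p := by
  obtain ⟨H, h1, -, h2⟩ := hH0 (empI.to X) q k ((empT _).to K) p inferInstance hq
    (empI.hom_ext _ _) h ((empT _).hom_ext _ _)
  exact ⟨H, h1, h2⟩

/-- the lifting property of the docstring -/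
def Lft {Y Z : SSet.{u}} (e : Y ⟶ Z) : Prop :=
  ∀ {K L : SSet.{u}} (q : K ⟶ L), KF q → ∀ (l : Z ⟶ L) (y : Δ[0] ⟶ Y) (k : Δ[0] ⟶ K),
    k ≫ q = y ≫ e ≫ l → ∃ m : Y ⟶ K, y ≫ m = k ∧ m ≫ q = e ≫ l

theorem mono_pt {Y : SSet.{u}} (y : Δ[0] ⟶ Y) : Mono y :=
  SSet.stdSimplex.isTerminalObj₀.mono_from y

theorem lft_fwd (hH0 : S_H0.{u}) (hH1 : S_H1.{u}) {Y Z : SSet.{u}} {e e' : Y ⟶ Z}
    (h : Hpc e e') (hL : Lft e) : Lft e' := by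
  intro K L q hq l y k hk
  obtain ⟨H, h0, h1⟩ := h
  obtain ⟨γ, g1, g2⟩ := path1 hH1 q hq.1 (y ▷ Δ[1] ≫ H ≫ l) k (by
    rw [SSet.ι₁_comp_assoc, reassoc_of% h1, hk])
  have hst : (SSet.ι₀ ≫ γ) ≫ q = y ≫ e ≫ l := by
    rw [Category.assoc, g2, SSet.ι₀_comp_assoc, reassoc_of% h0]
  obtain ⟨m0, m1, m2⟩ := hL q hq l y _ hst
  obtain ⟨H', k1, k2, k3⟩ := hH0 y q m0 γ (H ≫ l) (mono_pt y) hq.1 m1.symm (by
    rw [m2, reassoc_of% h0]) (by rw [g2])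
  refine ⟨SSet.ι₁ ≫ H', ?_, ?_⟩
  · rw [← SSet.ι₁_comp_assoc, k2, g1]
  · rw [Category.assoc, k3, reassoc_of% h1]

theorem lft_bwd (hH0 : S_H0.{u}) (hH1 : S_H1.{u}) {Y Z : SSet.{u}} {e e' : Y ⟶ Z}
    (h : Hpc e e') (hL : Lft e') : Lft e := by
  intro K L q hq l y k hk
  obtain ⟨H, h0, h1⟩ := h
  obtain ⟨γ, g1, g2⟩ := path0 hH0 q hq.1 (y ▷ Δ[1] ≫ H ≫ l) k (by
    rw [SSet.ι₀_comp_assoc, reassoc_of% h0, hk])
  have hst : (SSet.ι₁ ≫ γ) ≫ q = y ≫ e' ≫ l := by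
    rw [Category.assoc, g2, SSet.ι₁_comp_assoc, reassoc_of% h1]
  obtain ⟨m0, m1, m2⟩ := hL q hq l y _ hst
  obtain ⟨H', k1, k2, k3⟩ := hH1 y q m0 γ (H ≫ l) (mono_pt y) hq.1 m1.symm (by
    rw [m2, reassoc_of% h1]) (by rw [g2])
  refine ⟨SSet.ι₀ ≫ H', ?_, ?_⟩
  · rw [← SSet.ι₀_comp_assoc, k2, g1]
  · rw [Category.assoc, k3, reassoc_of% h0]

theorem lft_eqv (hH0 : S_H0.{u}) (hH1 : S_H1.{u}) {Y Z : SSet.{u}} {e e' : Y ⟶ Z}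
    (h : Relation.EqvGen Hpc e e') : Lft e ↔ Lft e' := by
  induction h with
  | rel a b h => exact ⟨lft_fwd hH0 hH1 h, lft_bwd hH0 hH1 h⟩
  | refl a => exact Iff.rfl
  | symm a b _ ih => exact ih.symm
  | trans a b c _ _ ih1 ih2 => exact ih1.trans ih2

theorem ret (hV : S_V.{u}) (hH0 : S_H0.{u}) (hH1 : S_H1.{u}) : S_RET.{u} := by
  intro X Y f g hfg hX
  have h1 : Lft (g ≫ f) := by
    intro K L q hq l y k hk
    have hA : Ac (y ≫ g) := hV hX _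
    have hA' := hA q hq
    have sq : CommSq k (y ≫ g) q (f ≫ l) := ⟨by simpa using hk⟩
    refine ⟨g ≫ sq.lift, ?_, ?_⟩
    · rw [← Category.assoc, sq.fac_left]
    · rw [Category.assoc, sq.fac_right, Category.assoc]
  have h2 : Lft (𝟙 Y) := (lft_eqv hH0 hH1 hfg).1 h1
  obtain ⟨x, -⟩ := hX
  refine ⟨x ≫ f, ?_⟩
  intro K L q hq
  constructor
  intro k l sq
  obtain ⟨m, m1, m2⟩ := h2 q hq l (x ≫ f) k (by simpa using sq.w)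
  exact ⟨⟨⟨m, m1, by simpa using m2⟩⟩⟩

end Pool.Agent.Q166.PM
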