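import Pool.Agent.Q213.PM.Stm

/-!
# Project PM (helper213): sequential unions of subcomplexes
-/

set_option autoImplicit false

universe u

open CategoryTheory Limits Opposite Simplicial HomotopicalAlgebra MonoidalCategory
open SSet.modelCategoryQuillen

namespace Pool.Agent.Q166.PM

open Pool.Agent.Q213.PM SSet

/-- the inclusion of the first term is a transfinite composition -/
noncomputable def seqComp {Z : SSet.{u}} (S : ℕ →o Z.Subcomplex)
    (h : ∀ n, Ac (Subcomplex.homOfLE (S.monotone (Nat.le_succ n)))) (hS : ⨆ n, S n = ⊤) :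
    Ac.{u}.TransfiniteCompositionOfShape ℕ (S 0).ι where
  F := S.monotone.functor ⋙ Subcomplex.toSSetFunctor
  isoBot := Iso.refl _
  incl := { app _ := Subcomplex.ι _ }
  isColimit :=
    IsColimit.ofIsoColimit (isColimitOfPreserves (Subcomplex.toSSetFunctor)
      ((CompleteLattice.colimitCocone (S.monotone.functor)).isColimit))
        (Cocone.ext (Subcomplex.eqToIso hS ≪≫ Subcomplex.topIso Z))
  fac := Category.id_comp _
  map_mem n _ := h n

theorem seq : S_SEQ.{u} := by
  intro Z S h hS
  exact MorphismProperty.transfiniteCompositionsOfShape_le KF.llp ℕ _ ⟨seqComp S h hS⟩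

end Pool.Agent.Q166.PM
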